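import Mathlib

/-!
# [GXA-U1] the curves `y² + y = x³ + A x² + B x + C` and their period lattices (`Δ < 0`)
-/

set_option autoImplicit false

open scoped Real

namespace GXA

/-- The curve `y² + y = x³ + A x² + B x + C`. -/
def E (A B C : ℤ) (K : Type*) [CommRing K] : WeierstrassCurve K := ⟨0, A, 1, B, C⟩

/-- `L` is a lattice with the invariants of `E` (`x = ℘ - A/3`), and
`L = {(a Om + b i Om')/2 : a, b ∈ ℤ, a ≡ b mod 2}`. -/
structure IsLat (A B C : ℤ) (L : PeriodPair) (Om Om' : ℝ) : Prop where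
  pos : 0 < Om
  pos' : 0 < Om'
  mem : ∀ z : ℂ, z ∈ L.lattice ↔
    ∃ a b : ℤ, (2 : ℤ) ∣ a - b ∧ z = (a * Om + b * (Complex.I * Om')) / 2
  g2 : L.g₂ = (4 * A ^ 2 - 12 * B) / 3
  g3 : L.g₃ = (-8 * A ^ 3 + 36 * A * B - 27 * (1 + 4 * C)) / 27

theorem E_Δ (A B C : ℤ) (K : Type*) [CommRing K] :
    (E A B C K).Δ = ((-16 * A ^ 2 * (4 * A * C + A - B ^ 2) - 64 * B ^ 3
      - 27 * (1 + 4 * C) ^ 2 + 72 * A * B * (1 + 4 * C) : ℤ) : K) := by
  simp only [E, WeierstrassCurve.Δ, WeierstrassCurve.b₂, WeierstrassCurve.b₄, WeierstrassCurve.b₆,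
    WeierstrassCurve.b₈]
  push_cast
  ring

end GXA
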