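import Pool.Agent.GXA.Final
import Pool.Agent.NC11.M10c
import Pool.Agent.NC11.H4
import Pool.Agent.NC11.U8

/-!
# [GXA] the instance `N = 11`: `X₀(11)`
-/

set_option autoImplicit false

open scoped Real
open Filter Topology

namespace GXA

/-- the newform of level `11` -/
noncomputable def nf11 : NF 11 where
  f := NC11.f
  a := NC11.an
  a_zero := NC11.an_zero
  a_one := NC11.an_one
  ev := fun z hz => by
    have h := NC11.f_ev z hz
    unfold NC11.A at h
    simpa only [PowerSeries.coeff_mk] using h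
  mod := fun a b c d h z hz => by
    have := NC11.f_mod a b c d (by exact_mod_cast h) z hz
    exact_mod_cast this
  fricke := fun z hz => by
    have := NC11.f_fricke z hz
    exact_mod_cast this
  bound := NC11.f_bound
  hecke := fun p hp hpN n => NC11.hecke hp (fun h => hpN (by rw [h])) n
  hecke_bad := fun p hp hpN n => by
    have h1 : p = 11 := (Nat.prime_dvd_prime_iff_eq hp (by norm_num)).1 hpN
    subst h1
    have h2 := NC11.an_eleven 1
    rw [mul_one, NC11.an_one] at h2
    rw [h2, one_mul, NC11.an_eleven]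

theorem hh11 : nf11.hh = NC11.hh := rfl

theorem Lval11 : nf11.Lval = NC11.Lval := by
  unfold NF.Lval NC11.Lval
  rw [hh11]
  norm_num

theorem isPer11 {l : ℂ} (h : nf11.IsPer l) : NC11.IsPer l := by
  obtain ⟨a, b, c, d, h1, h2⟩ := h
  rw [hh11] at h2
  refine ⟨a, b, c, d, by exact_mod_cast h1, fun z hz => ?_⟩
  have := h2 z hz
  exact_mod_cast this

theorem E11 (K : Type*) [CommRing K] : E (-1) (-10) (-20) K = NC11.E K := by
  ext <;> simp [E, NC11.E]

theorem E11_Δ : (E (-1) (-10) (-20) ℤ).Δ = -11 ^ 5 := by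
  rw [E_Δ]
  norm_num

theorem dvd11 {p : ℕ} (hp : p.Prime) : (p : ℤ) ∣ -11 ^ 5 ↔ p ∣ 11 := by
  rw [dvd_neg]
  constructor
  · intro h3
    have h4 : (p : ℤ) ∣ 11 := (Nat.prime_iff_prime_int.1 hp).dvd_of_dvd_pow h3
    exact_mod_cast h4
  · intro h
    have h4 : (p : ℤ) ∣ 11 := by exact_mod_cast h
    exact h4.trans (dvd_pow_self _ (by norm_num))

theorem link11 : Link nf11 (-1) (-10) (-20) where
  two := by decide
  Δ0 := by rw [E11_Δ]; norm_num
  bad := fun p hp => by rw [E11_Δ, dvd11 hp]
  c4 := fun p hp hpN => by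
    have h1 : p = 11 := (Nat.prime_dvd_prime_iff_eq hp (by norm_num)).1 hpN
    subst h1
    have : (E (-1) (-10) (-20) ℤ).c₄ = 496 := by
      norm_num [E, WeierstrassCurve.c₄, WeierstrassCurve.b₂, WeierstrassCurve.b₄]
    rw [this]
    norm_num
  good := fun p hp hpN => by
    have : Fact p.Prime := ⟨hp⟩
    rw [E11]
    exact NC11.an_eq (fun h => hpN (by rw [h]))
  mult := fun p hp hpN => by
    have h1 : p = 11 := (Nat.prime_dvd_prime_iff_eq hp (by norm_num)).1 hpN
    subst h1
    left
    refine ⟨?_, 5, ?_⟩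
    · have h2 := NC11.an_eleven 1
      rw [mul_one, NC11.an_one] at h2
      exact h2
    · have : GE.nodePoly (E (-1) (-10) (-20) ℤ) 5 = 17402 := by
        norm_num [GE.nodePoly, E, WeierstrassCurve.c₄, WeierstrassCurve.b₂, WeierstrassCurve.b₄,
          WeierstrassCurve.b₆]
      rw [this]
      norm_num

theorem isLat11 {L : PeriodPair} {Om Om' : ℝ} (h : NC11.IsLat L Om Om') :
    IsLat (-1) (-10) (-20) L Om Om' :=
  ⟨h.pos, h.pos', h.mem, by rw [h.g2]; push_cast; norm_num, by rw [h.g3]; push_cast; norm_num⟩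

theorem per11 {L : PeriodPair} {Om Om' : ℝ} (h : NC11.IsLat L Om Om') :
    Per nf11 Om Om' 5 1 where
  pos := h.pos
  pos' := h.pos'
  odd_u := by decide
  odd_v := by decide
  val := by
    rw [Lval11, NC11.Lval_eq h]
    push_cast
    ring
  per := fun l hl => by
    obtain ⟨A, B, h1, h2⟩ := NC11.per_coords h (isPer11 hl)
    refine ⟨5 * A, 5 * B, ?_, ?_⟩
    · rw [← mul_sub]
      exact h1.mul_left 5
    · rw [h2]
      push_cast
      ring

end GXA
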